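import Mathlib

/-!
Definitions for boundary tracking of the one-dimensional heat equation.
-/

namespace Pool.Agent.P.MP_93c926_an

open Set
open scoped ENNReal

/-- `y t x` is the bounded classical solution of `y_t = y_xx` in `(0,T) × (0,L)` with
`y(t,0) = 0`, `y(t,L) = v t` and `y(0,x) = 0`.  It is continuous on the closed rectangle
except possibly at the corner `(0,L)`, where `v 0` need not match the initial datum, and it is
of class `C^{1,2}` in the interior. -/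
structure IsHeatSolution (L T : ℝ) (v : ℝ → ℝ) (y : ℝ → ℝ → ℝ) : Prop where
  continuousOn :
    ContinuousOn (fun p : ℝ × ℝ => y p.1 p.2) ((Icc 0 T ×ˢ Icc 0 L) \ {(0, L)})
  bounded : ∃ M : ℝ, ∀ t ∈ Icc 0 T, ∀ x ∈ Icc 0 L, |y t x| ≤ M
  heat : ∃ yx yxx : ℝ → ℝ → ℝ,
    ContinuousOn (fun p : ℝ × ℝ => yx p.1 p.2) (Ioo 0 T ×ˢ Ioo 0 L) ∧
    ContinuousOn (fun p : ℝ × ℝ => yxx p.1 p.2) (Ioo 0 T ×ˢ Ioo 0 L) ∧
    ∀ t ∈ Ioo 0 T, ∀ x ∈ Ioo 0 L,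
      HasDerivAt (y t) (yx t x) x ∧ HasDerivAt (yx t) (yxx t x) x ∧
        HasDerivAt (fun s => y s x) (yxx t x) t
  left : ∀ t ∈ Icc 0 T, y t 0 = 0
  right : ∀ t ∈ Ioc 0 T, y t L = v t
  initial : ∀ x ∈ Ico 0 L, y 0 x = 0

/-- The control `v` achieves `ε`-approximate tracking of `w`: the flux `q t = ∂ₓ y (t, 0)` of the
solution exists, is continuous on `[0,T]` and stays within `ε` of `w` on `[0,T]`. -/
def Tracks (L T : ℝ) (w : ℝ → ℝ) (ε : ℝ) (v : ℝ → ℝ) : Prop :=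
  ∃ y : ℝ → ℝ → ℝ, IsHeatSolution L T v y ∧
    ∃ q : ℝ → ℝ, ContinuousOn q (Icc 0 T) ∧
      ∀ t ∈ Icc 0 T, HasDerivWithinAt (y t) (q t) (Icc 0 L) 0 ∧ |q t - w t| ≤ ε

/-- The cost `K_w(ε)`: the infimum, in `[0, ∞]`, of the sup norms on `[0,T]` of the continuous
controls that achieve `ε`-approximate tracking of `w`. -/
noncomputable def cost (L T : ℝ) (w : ℝ → ℝ) (ε : ℝ) : ℝ≥0∞ :=
  ⨅ (v : ℝ → ℝ) (_ : ContinuousOn v (Icc 0 T)) (_ : Tracks L T w ε v),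
    ⨆ t ∈ Icc (0 : ℝ) T, ENNReal.ofReal |v t|

end Pool.Agent.P.MP_93c926_an
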