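import Pool.Agent.P.MP_93c926_an.Defs

/-!
The flatness series `y(t,x) = ∑ x^(2i+1)/(2i+1)! F_i(t)` for a chain of derivatives `F_i`.
-/

namespace Pool.Agent.P.MP_93c926_an

open Set
open scoped Nat

/-- A chain of successive derivatives with Gevrey-2 bounds, vanishing for negative times. -/
structure Chain (ρ M : ℝ) (F : ℕ → ℝ → ℝ) : Prop where
  deriv : ∀ i t, HasDerivAt (F i) (F (i + 1) t) t
  bound : ∀ i t, |F i t| ≤ M * ((2 * i)! : ℝ) * ρ ^ i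
  zero : ∀ i t, t ≤ 0 → F i t = 0

noncomputable def ser0 (F : ℕ → ℝ → ℝ) (t x : ℝ) : ℝ :=
  ∑' i : ℕ, x ^ (2 * i + 1) / ((2 * i + 1)! : ℝ) * F i t

noncomputable def ser1 (F : ℕ → ℝ → ℝ) (t x : ℝ) : ℝ :=
  ∑' i : ℕ, x ^ (2 * i) / ((2 * i)! : ℝ) * F i t

variable {ρ M R : ℝ} {F : ℕ → ℝ → ℝ}

theorem Chain.M_nonneg (h : Chain ρ M F) : 0 ≤ M := by
  have := h.bound 0 0
  simp at this
  exact (abs_nonneg _).trans this

theorem Chain.continuous (h : Chain ρ M F) (i : ℕ) : Continuous (F i) :=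
  continuous_iff_continuousAt.2 fun t => (h.deriv i t).continuousAt

theorem Chain.term1 (h : Chain ρ M F) (hρ : 0 ≤ ρ) (hR : ρ * R ^ 2 ≤ 1 / 2)
    (i : ℕ) (t x : ℝ) (hx : |x| ≤ R) :
    |x ^ (2 * i) / ((2 * i)! : ℝ) * F i t| ≤ M * (1 / 2) ^ i := by
  have hM := h.M_nonneg
  have hf : (0 : ℝ) < ((2 * i)! : ℝ) := by exact_mod_cast Nat.factorial_pos _
  have hb := h.bound i t
  have hx2 : |x| ^ (2 * i) ≤ R ^ (2 * i) := pow_le_pow_left₀ (abs_nonneg _) hx _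
  rw [abs_mul, abs_div, abs_pow, abs_of_pos hf]
  calc |x| ^ (2 * i) / ((2 * i)! : ℝ) * |F i t|
      ≤ R ^ (2 * i) / ((2 * i)! : ℝ) * (M * ((2 * i)! : ℝ) * ρ ^ i) := by
        gcongr
        exact div_nonneg ((pow_nonneg (abs_nonneg _) _).trans hx2) hf.le
    _ = M * (ρ * R ^ 2) ^ i := by
        rw [mul_pow, ← pow_mul]; field_simp
    _ ≤ M * (1 / 2) ^ i := by
        gcongr

theorem Chain.term0 (h : Chain ρ M F) (hρ : 0 ≤ ρ) (hR : ρ * R ^ 2 ≤ 1 / 2)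
    (i : ℕ) (t x : ℝ) (hx : |x| ≤ R) :
    |x ^ (2 * i + 1) / ((2 * i + 1)! : ℝ) * F i t| ≤ R * M * (1 / 2) ^ i := by
  have h1 := h.term1 hρ hR i t x hx
  have hf : (0 : ℝ) < ((2 * i)! : ℝ) := by exact_mod_cast Nat.factorial_pos _
  have e : x ^ (2 * i + 1) / ((2 * i + 1)! : ℝ) * F i t
      = (x / (2 * i + 1)) * (x ^ (2 * i) / ((2 * i)! : ℝ) * F i t) := by
    rw [Nat.factorial_succ]; push_cast; field_simp; ring
  rw [e, abs_mul, mul_assoc]
  have h2 : |x / (2 * i + 1)| ≤ R := by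
    rw [abs_div]
    have : (1 : ℝ) ≤ |(2 * i + 1 : ℝ)| := by
      rw [abs_of_pos (by positivity)]
      have : (0 : ℝ) ≤ i := Nat.cast_nonneg i
      linarith
    exact (div_le_self (abs_nonneg _) this).trans hx
  exact mul_le_mul h2 h1 (abs_nonneg _) ((abs_nonneg _).trans hx)

theorem Chain.term2 (h : Chain ρ M F) (hρ : 0 ≤ ρ) (hR : ρ * R ^ 2 ≤ 1 / 2) (hR0 : 0 < R)
    (i : ℕ) (t x : ℝ) (hx : |x| ≤ R) :
    |x ^ (2 * i + 1) / ((2 * i + 1)! : ℝ) * F (i + 1) t|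
      ≤ M / R * ((i + 1 : ℝ) * (1 / 2) ^ i) := by
  have hM := h.M_nonneg
  have hf : (0 : ℝ) < ((2 * i + 1)! : ℝ) := by exact_mod_cast Nat.factorial_pos _
  have hb := h.bound (i + 1) t
  have hx2 : |x| ^ (2 * i + 1) ≤ R ^ (2 * i + 1) := pow_le_pow_left₀ (abs_nonneg _) hx _
  rw [abs_mul, abs_div, abs_pow, abs_of_pos hf]
  have e : ((2 * (i + 1))! : ℝ) = (2 * i + 2) * ((2 * i + 1)! : ℝ) := by
    rw [show 2 * (i + 1) = (2 * i + 1) + 1 by ring, Nat.factorial_succ]; push_cast; ring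
  calc |x| ^ (2 * i + 1) / ((2 * i + 1)! : ℝ) * |F (i + 1) t|
      ≤ R ^ (2 * i + 1) / ((2 * i + 1)! : ℝ) * (M * ((2 * (i + 1))! : ℝ) * ρ ^ (i + 1)) := by
        gcongr
    _ = M / R * ((2 * i + 2) * (ρ * R ^ 2) ^ (i + 1)) := by
        rw [e, mul_pow, ← pow_mul]; field_simp; ring
    _ ≤ M / R * ((2 * i + 2) * (1 / 2) ^ (i + 1)) := by
        gcongr
    _ = M / R * ((i + 1 : ℝ) * (1 / 2) ^ i) := by ring

theorem summable_half (c : ℝ) : Summable fun i : ℕ => c * (1 / 2 : ℝ) ^ i :=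
  summable_geometric_two.mul_left c

theorem summable_succ_half (c : ℝ) :
    Summable fun i : ℕ => c * ((i + 1 : ℝ) * (1 / 2 : ℝ) ^ i) := by
  apply Summable.mul_left
  have h1 : Summable fun i : ℕ => (i : ℝ) ^ 1 * (1 / 2 : ℝ) ^ i :=
    summable_pow_mul_geometric_of_norm_lt_one 1 (by rw [Real.norm_eq_abs]; norm_num [abs_of_pos])
  refine (h1.add summable_geometric_two).congr fun i => ?_
  ring

theorem Chain.hasDerivAt_x0 (h : Chain ρ M F) (hρ : 0 ≤ ρ) (hR : ρ * R ^ 2 ≤ 1 / 2)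
    (t x : ℝ) (hx : x ∈ Ioo (-R) R) : HasDerivAt (ser0 F t) (ser1 F t x) x := by
  unfold ser0 ser1
  refine hasDerivAt_tsum_of_isPreconnected (u := fun i : ℕ => M * (1 / 2 : ℝ) ^ i)
    (g := fun i z => z ^ (2 * i + 1) / ((2 * i + 1)! : ℝ) * F i t)
    (g' := fun i z => z ^ (2 * i) / ((2 * i)! : ℝ) * F i t) (y₀ := 0)
    (summable_half M) isOpen_Ioo isPreconnected_Ioo ?_ ?_ ?_ ?_ hx
  · intro i z _
    have := ((hasDerivAt_pow (2 * i + 1) z).div_const ((2 * i + 1)! : ℝ)).mul_const (F i t)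
    refine this.congr_deriv ?_
    congr 1
    rw [Nat.factorial_succ]; push_cast
    have hf : (0 : ℝ) < ((2 * i)! : ℝ) := by exact_mod_cast Nat.factorial_pos _
    field_simp
  · intro i z hz
    exact h.term1 hρ hR i t z (abs_le.2 ⟨hz.1.le, hz.2.le⟩)
  · constructor <;> linarith [hx.1, hx.2]
  · simp [summable_zero]

theorem Chain.hasDerivAt_x1 (h : Chain ρ M F) (hρ : 0 ≤ ρ) (hR : ρ * R ^ 2 ≤ 1 / 2)
    (t x : ℝ) (hx : x ∈ Ioo (-R) R) :
    HasDerivAt (ser1 F t) (ser0 (fun i => F (i + 1)) t x) x := by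
  have hR0 : 0 < R := by linarith [hx.1, hx.2]
  have key : HasDerivAt
      (fun z => ∑' i : ℕ, z ^ (2 * (i + 1)) / ((2 * (i + 1))! : ℝ) * F (i + 1) t)
      (ser0 (fun i => F (i + 1)) t x) x := by
    unfold ser0
    refine hasDerivAt_tsum_of_isPreconnected
      (u := fun i : ℕ => M / R * ((i + 1 : ℝ) * (1 / 2 : ℝ) ^ i))
      (g := fun i z => z ^ (2 * (i + 1)) / ((2 * (i + 1))! : ℝ) * F (i + 1) t)
      (g' := fun i z => z ^ (2 * i + 1) / ((2 * i + 1)! : ℝ) * F (i + 1) t) (y₀ := 0)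
      (summable_succ_half _) isOpen_Ioo isPreconnected_Ioo ?_ ?_ ?_ ?_ hx
    · intro i z _
      have := ((hasDerivAt_pow (2 * (i + 1)) z).div_const
        ((2 * (i + 1))! : ℝ)).mul_const (F (i + 1) t)
      refine this.congr_deriv ?_
      congr 1
      rw [show 2 * (i + 1) = (2 * i + 1) + 1 by ring, Nat.factorial_succ (2 * i + 1)]
      have hf : (0 : ℝ) < ((2 * i + 1)! : ℝ) := by exact_mod_cast Nat.factorial_pos _
      simp only [Nat.add_sub_cancel]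
      push_cast
      field_simp
    · intro i z hz
      exact h.term2 hρ hR hR0 i t z (abs_le.2 ⟨hz.1.le, hz.2.le⟩)
    · constructor <;> linarith
    · simp [summable_zero]
  have key2 := key.const_add (F 0 t)
  refine key2.congr_of_eventuallyEq ?_
  filter_upwards [Ioo_mem_nhds hx.1 hx.2] with z hz
  have hs : Summable fun i : ℕ => z ^ (2 * i) / ((2 * i)! : ℝ) * F i t :=
    Summable.of_norm_bounded (summable_half M)
      fun i => h.term1 hρ hR i t z (abs_le.2 ⟨hz.1.le, hz.2.le⟩)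
  unfold ser1
  rw [hs.tsum_eq_zero_add]
  simp

theorem Chain.hasDerivAt_t (h : Chain ρ M F) (hρ : 0 ≤ ρ) (hR : ρ * R ^ 2 ≤ 1 / 2)
    (hR0 : 0 < R) (t x : ℝ) (hx : |x| ≤ R) :
    HasDerivAt (fun s => ser0 F s x) (ser0 (fun i => F (i + 1)) t x) t := by
  unfold ser0
  refine hasDerivAt_tsum
    (u := fun i : ℕ => M / R * ((i + 1 : ℝ) * (1 / 2 : ℝ) ^ i))
    (g := fun i s => x ^ (2 * i + 1) / ((2 * i + 1)! : ℝ) * F i s)
    (g' := fun i s => x ^ (2 * i + 1) / ((2 * i + 1)! : ℝ) * F (i + 1) s) (y₀ := 0)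
    (summable_succ_half _) ?_ ?_ ?_ t
  · intro i s
    exact (h.deriv i s).const_mul _
  · intro i s
    exact h.term2 hρ hR hR0 i s x hx
  · simp [h.zero, summable_zero]

theorem Chain.cont0 (h : Chain ρ M F) (hρ : 0 ≤ ρ) (hR : ρ * R ^ 2 ≤ 1 / 2) :
    ContinuousOn (fun p : ℝ × ℝ => ser0 F p.1 p.2) {p | |p.2| ≤ R} := by
  unfold ser0
  refine continuousOn_tsum (u := fun i : ℕ => R * M * (1 / 2 : ℝ) ^ i) ?_ (summable_half _) ?_
  · intro i
    have := h.continuous i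
    fun_prop
  · intro i p hp
    exact h.term0 hρ hR i p.1 p.2 hp

theorem Chain.cont1 (h : Chain ρ M F) (hρ : 0 ≤ ρ) (hR : ρ * R ^ 2 ≤ 1 / 2) :
    ContinuousOn (fun p : ℝ × ℝ => ser1 F p.1 p.2) {p | |p.2| ≤ R} := by
  unfold ser1
  refine continuousOn_tsum (u := fun i : ℕ => M * (1 / 2 : ℝ) ^ i) ?_ (summable_half _) ?_
  · intro i
    have := h.continuous i
    fun_prop
  · intro i p hp
    exact h.term1 hρ hR i p.1 p.2 hp

theorem Chain.cont2 (h : Chain ρ M F) (hρ : 0 ≤ ρ) (hR : ρ * R ^ 2 ≤ 1 / 2) (hR0 : 0 < R) :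
    ContinuousOn (fun p : ℝ × ℝ => ser0 (fun i => F (i + 1)) p.1 p.2) {p | |p.2| ≤ R} := by
  unfold ser0
  refine continuousOn_tsum (u := fun i : ℕ => M / R * ((i + 1 : ℝ) * (1 / 2 : ℝ) ^ i)) ?_
    (summable_succ_half _) ?_
  · intro i
    have := h.continuous (i + 1)
    fun_prop
  · intro i p hp
    exact h.term2 hρ hR hR0 i p.1 p.2 hp

theorem Chain.abs_ser0_le (h : Chain ρ M F) (hρ : 0 ≤ ρ) (hR : ρ * R ^ 2 ≤ 1 / 2)
    (t x : ℝ) (hx : |x| ≤ R) : |ser0 F t x| ≤ 2 * R * M := by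
  unfold ser0
  have h1 := tsum_of_norm_bounded
    (f := fun i : ℕ => x ^ (2 * i + 1) / ((2 * i + 1)! : ℝ) * F i t)
    (summable_half (R * M)).hasSum (fun i => h.term0 hρ hR i t x hx)
  rw [tsum_mul_left, tsum_geometric_two] at h1
  rw [Real.norm_eq_abs] at h1
  linarith

theorem ser1_zero (F : ℕ → ℝ → ℝ) (t : ℝ) : ser1 F t 0 = F 0 t := by
  unfold ser1
  rw [tsum_eq_single 0]
  · simp
  · intro i hi
    simp [hi]

theorem ser0_zero (F : ℕ → ℝ → ℝ) (t : ℝ) : ser0 F t 0 = 0 := by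
  simp [ser0]

/-- The flatness series solves the control problem, with flux `F 0`. -/
theorem Chain.solution (h : Chain ρ M F) (hρ : 0 ≤ ρ) {L : ℝ} (hL : 0 < L)
    (hR : ρ * (2 * L) ^ 2 ≤ 1 / 2) (T : ℝ) :
    IsHeatSolution L T (fun t => ser0 F t L) (ser0 F) ∧
      Continuous (fun t => ser0 F t L) ∧ (∀ t, |ser0 F t L| ≤ 4 * L * M) ∧
      ∀ t, HasDerivAt (ser0 F t) (F 0 t) 0 := by
  have hR0 : 0 < 2 * L := by linarith
  have habs : ∀ x ∈ Icc 0 L, |x| ≤ 2 * L := fun x hx => by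
    rw [abs_of_nonneg hx.1]; linarith [hx.2]
  have hL' : |L| ≤ 2 * L := habs L ⟨hL.le, le_rfl⟩
  refine ⟨⟨?_, ?_, ?_, ?_, ?_, ?_⟩, ?_, ?_, ?_⟩
  · exact (h.cont0 hρ hR).mono fun p hp => habs _ hp.1.2
  · exact ⟨2 * (2 * L) * M, fun t _ x hx => h.abs_ser0_le hρ hR t x (habs x hx)⟩
  · refine ⟨ser1 F, ser0 (fun i => F (i + 1)), ?_, ?_, ?_⟩
    · exact (h.cont1 hρ hR).mono fun p hp => habs _ (Ioo_subset_Icc_self hp.2)
    · exact (h.cont2 hρ hR hR0).mono fun p hp => habs _ (Ioo_subset_Icc_self hp.2)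
    · intro t _ x hx
      have hx' : x ∈ Ioo (-(2 * L)) (2 * L) := ⟨by linarith [hx.1], by linarith [hx.2]⟩
      exact ⟨h.hasDerivAt_x0 hρ hR t x hx', h.hasDerivAt_x1 hρ hR t x hx',
        h.hasDerivAt_t hρ hR hR0 t x (habs x (Ioo_subset_Icc_self hx))⟩
  · intro t _
    exact ser0_zero F t
  · intro t _
    rfl
  · intro x _
    simp [ser0, h.zero]
  · exact continuous_iff_continuousAt.2 fun t => (h.hasDerivAt_t hρ hR hR0 t L hL').continuousAt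
  · intro t
    have := h.abs_ser0_le hρ hR t L hL'
    linarith
  · intro t
    have := h.hasDerivAt_x0 hρ hR t 0 ⟨by linarith, hR0⟩
    rwa [ser1_zero] at this

end Pool.Agent.P.MP_93c926_an
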