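import Pool.Agent.P.MP_93c926_an.Defs

/-!
Maximum principle on the rectangle with a singular corner, and the lower bound for the cost.
-/

namespace Pool.Agent.P.MP_93c926_an

open Set Filter Topology

/-- At an interior local maximum the second derivative is nonpositive. -/
theorem second_deriv_nonpos {f f' : ℝ → ℝ} {x a : ℝ} (hmax : IsLocalMax f x)
    (hf : ∀ᶠ z in 𝓝 x, HasDerivAt f (f' z) z) (hf' : HasDerivAt f' a x) : a ≤ 0 := by
  by_contra ha
  push Not at ha
  have hd : deriv f =ᶠ[𝓝 x] f' := hf.mono fun z hz => hz.deriv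
  have hdd : deriv (deriv f) x = a := by rw [hd.deriv_eq, hf'.deriv]
  have hmin : IsLocalMin f x :=
    isLocalMin_of_deriv_deriv_pos (by rw [hdd]; exact ha) hmax.deriv_eq_zero
      hf.self_of_nhds.continuousAt
  have hconst : f =ᶠ[𝓝 x] fun _ => f x := by
    filter_upwards [hmax, hmin] with z h1 h2 using le_antisymm h1 h2
  have h1 : deriv f =ᶠ[𝓝 x] fun _ => 0 := by
    filter_upwards [hconst.eventuallyEq_nhds] with z hz
    rw [hz.deriv_eq]; simp
  rw [h1.deriv_eq] at hdd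
  simp at hdd
  linarith

/-- At a one-sided (left) local maximum the derivative is nonnegative. -/
theorem deriv_nonneg_of_left_max {f : ℝ → ℝ} {t a : ℝ} (hf : HasDerivAt f a t)
    (hmax : ∀ᶠ s in 𝓝[<] t, f s ≤ f t) : 0 ≤ a := by
  have h1 := (hasDerivAt_iff_tendsto_slope.1 hf).mono_left
    (nhdsWithin_mono t (fun s (hs : s ∈ Iio t) => (ne_of_lt hs : s ∈ ({t}ᶜ : Set ℝ))))
  refine ge_of_tendsto h1 ?_
  filter_upwards [hmax, self_mem_nhdsWithin] with s hs hst
  rw [slope_def_field]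
  exact div_nonneg_of_nonpos (by linarith) (by linarith [mem_Iio.1 hst])

/-- At a one-sided (right) maximum on `[0,L]` the derivative within is nonpositive. -/
theorem derivWithin_nonpos_of_max {f : ℝ → ℝ} {L a : ℝ} (hL : 0 < L)
    (hf : HasDerivWithinAt f a (Icc 0 L) 0) (hmax : ∀ x ∈ Icc 0 L, f x ≤ f 0) : a ≤ 0 := by
  have h1 := hasDerivWithinAt_iff_tendsto_slope.1 hf
  have h2 : Icc 0 L \ {0} = Ioc 0 L := Icc_sdiff_left
  rw [h2] at h1
  have : (𝓝[Ioc 0 L] (0 : ℝ)).NeBot := left_nhdsWithin_Ioc_neBot hL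
  refine le_of_tendsto h1 ?_
  filter_upwards [self_mem_nhdsWithin] with x hx
  rw [slope_def_field]
  exact div_nonpos_of_nonpos_of_nonneg (by linarith [hmax x (Ioc_subset_Icc_self hx)])
    (by linarith [hx.1])

/-- The shifted heat kernel, normalised to equal one at the corner `(0,L)`. -/
noncomputable def ker (L δ t x : ℝ) : ℝ :=
  Real.exp (-(x - L) ^ 2 / (4 * (t + δ)) - (Real.log (t + δ) - Real.log δ) / 2)

theorem ker_pos (L δ t x : ℝ) : 0 < ker L δ t x := Real.exp_pos _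

theorem ker_dx (L δ t x : ℝ) (h : 0 < t + δ) :
    HasDerivAt (ker L δ t) (ker L δ t x * (-(x - L) / (2 * (t + δ)))) x := by
  unfold ker
  have h1 : HasDerivAt (fun x : ℝ => x - L) 1 x := (hasDerivAt_id x).sub_const L
  have h2 := (((h1.pow 2).neg.div_const (4 * (t + δ))).sub_const
    ((Real.log (t + δ) - Real.log δ) / 2)).exp
  refine h2.congr_deriv ?_
  simp only [Pi.neg_apply, Pi.pow_apply]
  congr 1
  field_simp
  push_cast
  ring

theorem ker_dxx (L δ t x : ℝ) (h : 0 < t + δ) :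
    HasDerivAt (fun x => ker L δ t x * (-(x - L) / (2 * (t + δ))))
      (ker L δ t x * ((x - L) ^ 2 / (4 * (t + δ) ^ 2) - 1 / (2 * (t + δ)))) x := by
  have h1 : HasDerivAt (fun x : ℝ => x - L) 1 x := (hasDerivAt_id x).sub_const L
  have h2 := (ker_dx L δ t x h).mul (h1.neg.div_const (2 * (t + δ)))
  refine h2.congr_deriv ?_
  simp only [Pi.neg_apply]
  field_simp
  ring

theorem ker_dt (L δ t x : ℝ) (h : 0 < t + δ) :
    HasDerivAt (fun s => ker L δ s x)
      (ker L δ t x * ((x - L) ^ 2 / (4 * (t + δ) ^ 2) - 1 / (2 * (t + δ)))) t := by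
  unfold ker
  have h1 : HasDerivAt (fun s : ℝ => s + δ) 1 t := (hasDerivAt_id t).add_const δ
  have h3 : HasDerivAt (fun s : ℝ => -(x - L) ^ 2 / (4 * (s + δ)))
      ((x - L) ^ 2 / (4 * (t + δ) ^ 2)) t := by
    have := (hasDerivAt_const t (-(x - L) ^ 2)).div (h1.const_mul 4) (by positivity)
    refine this.congr_deriv ?_
    field_simp
    ring
  have h4 : HasDerivAt (fun s : ℝ => (Real.log (s + δ) - Real.log δ) / 2)
      (1 / (2 * (t + δ))) t := by
    have := ((h1.log h.ne').sub_const (Real.log δ)).div_const 2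
    refine this.congr_deriv ?_
    field_simp
  exact (h3.sub h4).exp

theorem ker_continuousOn (L δ : ℝ) :
    ContinuousOn (fun p : ℝ × ℝ => ker L δ p.1 p.2) {p | 0 < p.1 + δ} := by
  unfold ker
  refine ContinuousOn.rexp (ContinuousOn.sub (ContinuousOn.div (by fun_prop) (by fun_prop) ?_) ?_)
  · intro p hp
    have : 0 < p.1 + δ := hp
    positivity
  · refine ContinuousOn.div_const (ContinuousOn.sub (ContinuousOn.log (by fun_prop) ?_)
      continuousOn_const) 2
    intro p hp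
    exact (ne_of_gt hp)

theorem ker_corner (L δ : ℝ) : ker L δ 0 L = 1 := by simp [ker]

theorem ker_small (L : ℝ) {t : ℝ} (ht : 0 < t) (x κ : ℝ) :
    ker L (t * Real.exp (-2 * κ)) t x ≤ Real.exp (-κ) := by
  unfold ker
  apply Real.exp_le_exp.2
  have hδ : 0 < t * Real.exp (-2 * κ) := by positivity
  have h1 : Real.log (t * Real.exp (-2 * κ)) = Real.log t - 2 * κ := by
    rw [Real.log_mul ht.ne' (Real.exp_pos _).ne', Real.log_exp]; ring
  have h2 : Real.log t ≤ Real.log (t + t * Real.exp (-2 * κ)) :=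
    Real.log_le_log ht (by linarith)
  have h3 : -(x - L) ^ 2 / (4 * (t + t * Real.exp (-2 * κ))) ≤ 0 :=
    div_nonpos_of_nonpos_of_nonneg (by nlinarith [sq_nonneg (x - L)]) (by positivity)
  rw [h1]; linarith

/-- Weak maximum principle for bounded solutions with a singular corner. -/
theorem max_principle {L T M : ℝ} (hL : 0 < L) {u ux uxx : ℝ → ℝ → ℝ}
    (hc : ContinuousOn (fun p : ℝ × ℝ => u p.1 p.2) ((Icc 0 T ×ˢ Icc 0 L) \ {(0, L)}))
    (hM : ∀ t ∈ Icc 0 T, ∀ x ∈ Icc 0 L, u t x ≤ M)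
    (hh : ∀ t ∈ Ioo 0 T, ∀ x ∈ Ioo 0 L,
      HasDerivAt (u t) (ux t x) x ∧ HasDerivAt (ux t) (uxx t x) x ∧
        HasDerivAt (fun s => u s x) (uxx t x) t)
    (h0 : ∀ t ∈ Icc 0 T, u t 0 ≤ 0) (h1 : ∀ t ∈ Ioc 0 T, u t L ≤ 0)
    (h2 : ∀ x ∈ Ico 0 L, u 0 x ≤ 0) {t₀ x₀ : ℝ} (ht₀ : t₀ ∈ Ioo 0 T) (hx₀ : x₀ ∈ Icc 0 L) :
    u t₀ x₀ ≤ 0 := by
  by_contra hpos
  push Not at hpos
  set a := u t₀ x₀ with ha
  have hM0 : 0 < M := hpos.trans_le (hM t₀ (Ioo_subset_Icc_self ht₀) x₀ hx₀)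
  set κ := 8 * M / a with hκ
  have hκ0 : 0 < κ := by positivity
  set δ := t₀ * Real.exp (-2 * κ) with hδ
  have hδ0 : 0 < δ := by have := ht₀.1; positivity
  set η := a / (4 * t₀) with hη
  have hη0 : 0 < η := by have := ht₀.1; positivity
  -- a ball around the corner where the kernel exceeds `1/2`
  have hker : ContinuousAt (fun p : ℝ × ℝ => ker L δ p.1 p.2) (0, L) := by
    refine (ker_continuousOn L δ).continuousAt (IsOpen.mem_nhds ?_ (by simpa using hδ0))
    exact isOpen_lt continuous_const (by fun_prop)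
  have hev : ∀ᶠ p : ℝ × ℝ in 𝓝 (0, L), 1 / 2 < ker L δ p.1 p.2 :=
    hker.eventually (lt_mem_nhds (by simp only [ker_corner]; norm_num))
  obtain ⟨r₀, hr₀, hr₀'⟩ := Metric.eventually_nhds_iff.1 hev
  set r := min (r₀ / 2) t₀ with hr
  have hr0 : 0 < r := lt_min (by linarith) ht₀.1
  set Q : Set (ℝ × ℝ) := (Icc 0 t₀ ×ˢ Icc 0 L) ∩ {p | r ≤ dist p (0, L)} with hQ
  have hQc : IsCompact Q :=
    (isCompact_Icc.prod isCompact_Icc).inter_right
      (isClosed_le continuous_const (by fun_prop))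
  have hQsub : Q ⊆ (Icc 0 T ×ˢ Icc 0 L) \ {(0, L)} := by
    rintro p ⟨⟨hp1, hp2⟩, hp3⟩
    refine ⟨⟨⟨hp1.1, hp1.2.trans ht₀.2.le⟩, hp2⟩, ?_⟩
    intro hp
    have : p = (0, L) := hp
    rw [this] at hp3
    simp at hp3
    linarith
  set ψ : ℝ × ℝ → ℝ := fun p => u p.1 p.2 - 2 * M * ker L δ p.1 p.2 - η * p.1 with hψ
  have hψc : ContinuousOn ψ Q := by
    refine ((hc.mono hQsub).sub (continuousOn_const.mul ((ker_continuousOn L δ).mono ?_))).sub
      (by fun_prop)
    rintro p ⟨⟨hp1, _⟩, _⟩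
    have := hp1.1
    change 0 < p.1 + δ
    linarith
  have hmem : (t₀, x₀) ∈ Q := by
    refine ⟨⟨⟨ht₀.1.le, le_rfl⟩, hx₀⟩, ?_⟩
    change r ≤ dist (t₀, x₀) (0, L)
    rw [Prod.dist_eq]
    refine le_max_of_le_left ?_
    rw [Real.dist_eq, sub_zero, abs_of_pos ht₀.1]
    exact min_le_right _ _
  have hψ0 : 0 < ψ (t₀, x₀) := by
    have e1 := ker_small L ht₀.1 x₀ κ
    have e2 : Real.exp (-κ) ≤ 1 / κ := by
      rw [Real.exp_neg, one_div]
      exact inv_anti₀ hκ0 (by linarith [Real.add_one_le_exp κ])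
    have e3 : 2 * M * ker L δ t₀ x₀ ≤ a / 4 := by
      calc 2 * M * ker L δ t₀ x₀ ≤ 2 * M * (1 / κ) := by gcongr; exact e1.trans e2
        _ = a / 4 := by rw [hκ]; field_simp; norm_num
    have e4 : η * t₀ = a / 4 := by rw [hη]; have := ht₀.1; field_simp
    change 0 < u t₀ x₀ - 2 * M * ker L δ t₀ x₀ - η * t₀
    linarith
  obtain ⟨⟨t, x⟩, hpQ, hmax⟩ := hQc.exists_isMaxOn ⟨_, hmem⟩ hψc
  have hpos' : 0 < ψ (t, x) := hψ0.trans_le (hmax hmem)
  obtain ⟨⟨ht, hx⟩, hd⟩ := hpQ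
  simp only at ht hx
  have hk := ker_pos L δ t x
  have hupos : 0 < u t x := by
    have : 0 < u t x - 2 * M * ker L δ t x - η * t := hpos'
    have h3 : 0 ≤ η * t := mul_nonneg hη0.le ht.1
    have h4 : 0 < 2 * M * ker L δ t x := by positivity
    linarith
  have htT : t ∈ Icc 0 T := ⟨ht.1, ht.2.trans ht₀.2.le⟩
  have hne : (t, x) ≠ (0, L) := fun h => (hQsub ⟨⟨ht, hx⟩, hd⟩).2 h
  have hx0 : 0 < x := by
    rcases hx.1.lt_or_eq with h | h
    · exact h
    · rw [← h] at hupos; linarith [h0 t htT]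
  have ht0 : 0 < t := by
    rcases ht.1.lt_or_eq with h | h
    · exact h
    · exfalso
      have hxL : x < L := lt_of_le_of_ne hx.2 fun h' => hne (by rw [← h, h'])
      rw [← h] at hupos; linarith [h2 x ⟨hx.1, hxL⟩]
  have hxL : x < L := by
    rcases hx.2.lt_or_eq with h | h
    · exact h
    · rw [h] at hupos; linarith [h1 t ⟨ht0, htT.2⟩]
  have hdr : r < dist (t, x) (0, L) := by
    by_contra hcon
    push Not at hcon
    have h5 : dist (t, x) (0, L) < r₀ := by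
      have : r ≤ r₀ / 2 := min_le_left _ _
      linarith
    have h6 : 1 / 2 < ker L δ t x := hr₀' h5
    have : 0 < u t x - 2 * M * ker L δ t x - η * t := hpos'
    have h3 : 0 ≤ η * t := mul_nonneg hη0.le ht.1
    have h7 := hM t htT x hx
    nlinarith
  have htI : t ∈ Ioo 0 T := ⟨ht0, ht.2.trans_lt ht₀.2⟩
  have htδ : 0 < t + δ := by linarith
  set k2 := ker L δ t x * ((x - L) ^ 2 / (4 * (t + δ) ^ 2) - 1 / (2 * (t + δ))) with hk2
  -- the space direction
  have hxx : uxx t x - 2 * M * k2 ≤ 0 := by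
    refine second_deriv_nonpos (f := fun z => ψ (t, z))
      (f' := fun z => ux t z - 2 * M * (ker L δ t z * (-(z - L) / (2 * (t + δ))))) (x := x)
      ?_ ?_ ?_
    · have e1 : ∀ᶠ z in 𝓝 x, r < dist (t, z) (0, L) :=
        (by fun_prop : Continuous fun z : ℝ => dist (t, z) ((0 : ℝ), L)).continuousAt.eventually
          (lt_mem_nhds hdr)
      filter_upwards [e1, Ioo_mem_nhds hx0 hxL] with z hz1 hz2
      exact hmax ⟨⟨ht, Ioo_subset_Icc_self hz2⟩, hz1.le⟩
    · filter_upwards [Ioo_mem_nhds hx0 hxL] with z hz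
      exact ((hh t htI z hz).1.sub ((ker_dx L δ t z htδ).const_mul (2 * M))).sub_const (η * t)
    · exact (hh t htI x ⟨hx0, hxL⟩).2.1.sub ((ker_dxx L δ t x htδ).const_mul (2 * M))
  -- the time direction
  have htt : 0 ≤ uxx t x - 2 * M * k2 - η * 1 := by
    refine deriv_nonneg_of_left_max (f := fun s => ψ (s, x)) (t := t) ?_ ?_
    · exact ((hh t htI x ⟨hx0, hxL⟩).2.2.sub ((ker_dt L δ t x htδ).const_mul (2 * M))).sub
        ((hasDerivAt_id t).const_mul η)
    · have e1 : ∀ᶠ s in 𝓝 t, r < dist (s, x) (0, L) :=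
        (by fun_prop : Continuous fun s : ℝ => dist (s, x) ((0 : ℝ), L)).continuousAt.eventually
          (lt_mem_nhds hdr)
      filter_upwards [e1.filter_mono nhdsWithin_le_nhds, Ioo_mem_nhdsLT ht0] with s hs1 hs2
      exact hmax ⟨⟨⟨hs2.1.le, hs2.2.le.trans ht.2⟩, hx⟩, hs1.le⟩
  linarith

/-- The flux at `x = 0` of a solution whose control is bounded by `K`. -/
theorem flux_le {L T K μ : ℝ} (hL : 0 < L) (hμ : 0 < μ) {v : ℝ → ℝ} {y : ℝ → ℝ → ℝ}
    (hy : IsHeatSolution L T v y) (hK : ∀ t ∈ Icc 0 T, |v t| ≤ K) {t q : ℝ} (ht : t ∈ Ioo 0 T)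
    (hq : HasDerivWithinAt (y t) q (Icc 0 L) 0) :
    q ≤ K * (Real.exp (μ ^ 2 * t) * μ / Real.sinh (μ * L)) := by
  have hK0 : 0 ≤ K := (abs_nonneg _).trans (hK t (Ioo_subset_Icc_self ht))
  have hS : 0 < Real.sinh (μ * L) := Real.sinh_pos_iff.2 (by positivity)
  obtain ⟨M, hM⟩ := hy.bounded
  obtain ⟨yx, yxx, -, -, hh⟩ := hy.heat
  set c := K / Real.sinh (μ * L) with hc
  have hc0 : 0 ≤ c := by positivity
  have dx : ∀ s z, HasDerivAt (fun z => c * (Real.exp (μ ^ 2 * s) * Real.sinh (μ * z)))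
      (c * (Real.exp (μ ^ 2 * s) * (Real.cosh (μ * z) * μ))) z := fun s z => by
    have := ((hasDerivAt_id z).const_mul μ).sinh
    simp only [id, mul_one] at this
    exact (this.const_mul _).const_mul _
  have hmp : ∀ x ∈ Icc 0 L, y t x - c * (Real.exp (μ ^ 2 * t) * Real.sinh (μ * x)) ≤ 0 := by
    intro x hx
    refine max_principle (T := T) (M := M) hL
      (u := fun s z => y s z - c * (Real.exp (μ ^ 2 * s) * Real.sinh (μ * z)))
      (ux := fun s z => yx s z - c * (Real.exp (μ ^ 2 * s) * (Real.cosh (μ * z) * μ)))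
      (uxx := fun s z => yxx s z - c * (Real.exp (μ ^ 2 * s) * (Real.sinh (μ * z) * μ * μ)))
      ?_ ?_ ?_ ?_ ?_ ?_ ht hx
    · exact hy.continuousOn.sub (by fun_prop)
    · intro s hs z hz
      have h1 := (le_abs_self _).trans (hM s hs z hz)
      have h2 : 0 ≤ Real.sinh (μ * z) := Real.sinh_nonneg_iff.2 (mul_nonneg hμ.le hz.1)
      have h3 : 0 ≤ c * (Real.exp (μ ^ 2 * s) * Real.sinh (μ * z)) := by positivity
      linarith
    · intro s hs z hz
      refine ⟨(hh s hs z hz).1.sub (dx s z), (hh s hs z hz).2.1.sub ?_, (hh s hs z hz).2.2.sub ?_⟩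
      · have := ((hasDerivAt_id z).const_mul μ).cosh
        simp only [id, mul_one] at this
        exact ((this.mul_const μ).const_mul _).const_mul _
      · have := ((((hasDerivAt_id s).const_mul (μ ^ 2)).exp).mul_const
          (Real.sinh (μ * z))).const_mul c
        simp only [id, mul_one] at this
        refine this.congr_deriv ?_
        ring
    · intro s hs
      simp [hy.left s hs]
    · intro s hs
      rw [hy.right s hs]
      have h1 := (le_abs_self _).trans (hK s (Ioc_subset_Icc_self hs))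
      have h2 : 1 ≤ Real.exp (μ ^ 2 * s) := Real.one_le_exp (by have := hs.1; positivity)
      have h3 : c * (Real.exp (μ ^ 2 * s) * Real.sinh (μ * L)) = K * Real.exp (μ ^ 2 * s) := by
        rw [hc]; field_simp
      rw [h3]; nlinarith
    · intro z hz
      rw [hy.initial z hz]
      have h2 : 0 ≤ Real.sinh (μ * z) := Real.sinh_nonneg_iff.2 (mul_nonneg hμ.le hz.1)
      have h3 : 0 ≤ c * (Real.exp (μ ^ 2 * 0) * Real.sinh (μ * z)) := by positivity
      linarith
  have h4 := derivWithin_nonpos_of_max hL (hq.sub (dx t 0).hasDerivWithinAt) (fun x hx => by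
    have := hmp x hx
    simp only [Pi.sub_apply, hy.left t (Ioo_subset_Icc_self ht)]
    simpa using this)
  have e : K * (Real.exp (μ ^ 2 * t) * μ / Real.sinh (μ * L))
      = c * (Real.exp (μ ^ 2 * t) * (Real.cosh (μ * 0) * μ)) := by
    rw [hc]; simp; field_simp
  rw [e]; linarith

theorem le_cost_of {L T ε B : ℝ} {w : ℝ → ℝ}
    (h : ∀ (v : ℝ → ℝ) (K : ℝ), Tracks L T w ε v → (∀ t ∈ Icc 0 T, |v t| ≤ K) → B ≤ K) :
    ENNReal.ofReal B ≤ cost L T w ε := by
  unfold cost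
  refine le_iInf fun v => le_iInf fun _ => le_iInf fun hv => ?_
  set S := ⨆ t ∈ Icc (0 : ℝ) T, ENNReal.ofReal |v t| with hS
  rcases eq_or_ne S ⊤ with h1 | h1
  · rw [h1]; exact le_top
  · rw [ENNReal.ofReal_le_iff_le_toReal h1]
    refine h v _ hv fun t ht => ?_
    rw [← ENNReal.ofReal_le_iff_le_toReal h1]
    exact le_iSup₂_of_le (f := fun t (_ : t ∈ Icc (0 : ℝ) T) => ENNReal.ofReal |v t|) t ht le_rfl

theorem cost_lower (L T : ℝ) (hL : 0 < L) (hT : 0 < T) (c : ℝ) (hc : c < L ^ 2 / 4) :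
    ∃ ε₀ : ℝ, 0 < ε₀ ∧ ∀ ε : ℝ, 0 < ε → ε < ε₀ →
      ENNReal.ofReal (Real.exp (c * ε⁻¹)) ≤ cost L T (fun t => t) ε := by
  set c' := (max c 0 + L ^ 2 / 4) / 2 with hc'
  have hL2 : 0 < L ^ 2 / 4 := by positivity
  have h1 : max c 0 < L ^ 2 / 4 := max_lt hc hL2
  have hc0 : 0 < c' := by have := le_max_right c 0; linarith
  have hc1 : c < c' := by have := le_max_left c 0; linarith
  have hc2 : c' < L ^ 2 / 4 := by linarith
  set σ := L ^ 2 / (4 * c') with hσ
  have hσ1 : 1 < σ := by rw [hσ, lt_div_iff₀ (by positivity)]; linarith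
  have hσ0 : 0 < σ := by linarith
  set d := c' - c with hd
  have hd0 : 0 < d := by linarith
  set D := (σ - 1) * σ / (2 * L) * d ^ 3 / 6 with hD
  have hD0 : 0 < D := by have : 0 < σ - 1 := by linarith
                         positivity
  refine ⟨min (min (T / σ) (2 * c')) D, by positivity, fun ε hε hε₀ => ?_⟩
  have hε1 : ε < T / σ := hε₀.trans_le ((min_le_left _ _).trans (min_le_left _ _))
  have hε2 : ε < 2 * c' := hε₀.trans_le ((min_le_left _ _).trans (min_le_right _ _))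
  have hε3 : ε < D := hε₀.trans_le (min_le_right _ _)
  refine le_cost_of fun v K ⟨y, hy, q, _, hq⟩ hK => ?_
  have ht : σ * ε ∈ Ioo 0 T := ⟨by positivity, by rw [lt_div_iff₀ hσ0] at hε1; linarith⟩
  obtain ⟨hq1, hq2⟩ := hq _ (Ioo_subset_Icc_self ht)
  set μ := L / (2 * (σ * ε)) with hμ
  have hμ0 : 0 < μ := by positivity
  have hf := flux_le hL hμ0 hy hK ht hq1
  have hK0 : 0 ≤ K := (abs_nonneg _).trans (hK _ (Ioo_subset_Icc_self ht))
  have e1 : μ ^ 2 * (σ * ε) = c' / ε := by rw [hμ, hσ]; field_simp; ring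
  have e2 : μ * L = 2 * (c' / ε) := by rw [hμ, hσ]; field_simp; ring
  have ha : 1 ≤ 2 * (c' / ε) := by
    rw [← mul_div_assoc, le_div_iff₀ hε]; linarith
  have hS : Real.exp (2 * (c' / ε)) / 4 ≤ Real.sinh (2 * (c' / ε)) := by
    rw [Real.sinh_eq]
    have h3 : Real.exp (-(2 * (c' / ε))) ≤ 1 := Real.exp_le_one_iff.2 (by linarith)
    have h4 := Real.add_one_le_exp (2 * (c' / ε))
    linarith
  rw [e1, e2] at hf
  have hE := Real.exp_pos (c' / ε)
  have e3 : Real.exp (2 * (c' / ε)) = Real.exp (c' / ε) * Real.exp (c' / ε) := by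
    rw [← Real.exp_add]; ring_nf
  have hq3 : (σ - 1) * ε ≤ q (σ * ε) := by
    have := (abs_le.1 hq2).1
    linarith
  have h5 : (σ - 1) * ε ≤ K * (4 * μ / Real.exp (c' / ε)) := by
    refine hq3.trans (hf.trans (mul_le_mul_of_nonneg_left ?_ hK0))
    calc Real.exp (c' / ε) * μ / Real.sinh (2 * (c' / ε))
        ≤ Real.exp (c' / ε) * μ / (Real.exp (2 * (c' / ε)) / 4) := by gcongr
      _ = 4 * μ / Real.exp (c' / ε) := by rw [e3]; field_simp
  have h6 : (σ - 1) * σ / (2 * L) * ε ^ 2 * Real.exp (c' / ε) ≤ K := by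
    rw [← mul_div_assoc, le_div_iff₀ hE] at h5
    have e4 : K * (4 * μ) = K * (2 * L / (σ * ε)) := by rw [hμ]; field_simp; ring
    rw [e4, ← mul_div_assoc, le_div_iff₀ (by positivity)] at h5
    rw [div_mul_eq_mul_div, div_mul_eq_mul_div, div_le_iff₀ (by positivity)]
    nlinarith
  refine le_trans ?_ h6
  have e5 : Real.exp (c' / ε) = Real.exp (d / ε) * Real.exp (c * ε⁻¹) := by
    rw [← Real.exp_add, hd]; congr 1; field_simp; ring
  have h7 : (d / ε) ^ 3 / 6 ≤ Real.exp (d / ε) := by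
    have := Real.pow_div_factorial_le_exp (d / ε) (by positivity) 3
    simpa [Nat.factorial] using this
  have h8 : 1 ≤ (σ - 1) * σ / (2 * L) * ε ^ 2 * Real.exp (d / ε) := by
    have hσ2 : 0 < σ - 1 := by linarith
    calc (1 : ℝ) ≤ D / ε := by rw [le_div_iff₀ hε]; linarith
      _ = (σ - 1) * σ / (2 * L) * ε ^ 2 * ((d / ε) ^ 3 / 6) := by rw [hD]; field_simp
      _ ≤ _ := by gcongr
  rw [e5, ← mul_assoc]
  have := Real.exp_pos (c * ε⁻¹)
  nlinarith

end Pool.Agent.P.MP_93c926_an
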