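import Pool.Agent.P.MP_93c926_an.Flat

/-!
The Gevrey-2 step functions `H_N(t) = exp(-u) ∑_{k<N} u^k/k!`, `u = b/t`, and their derivatives.
-/

namespace Pool.Agent.P.MP_93c926_an

open Set Finset
open scoped Nat

/-- `der i k` is the `i`-th derivative of `s ↦ s⁻¹^k exp(-1/s)` (extended by zero for `s ≤ 0`). -/
noncomputable def der : ℕ → ℕ → ℝ → ℝ
  | 0, k => fun s => s⁻¹ ^ k * expNegInvGlue s
  | i + 1, k => fun s => der i (k + 2) s - k * der i (k + 1) s

theorem der_hasDerivAt (i k : ℕ) (s : ℝ) : HasDerivAt (der i k) (der (i + 1) k s) s := by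
  induction i generalizing k with
  | zero =>
    have h := expNegInvGlue.hasDerivAt_polynomial_eval_inv_mul (Polynomial.X ^ k) s
    simp only [Polynomial.eval_pow, Polynomial.eval_X] at h
    refine h.congr_deriv ?_
    simp only [der, Polynomial.derivative_X_pow, Polynomial.eval_mul, Polynomial.eval_pow,
      Polynomial.eval_X, Polynomial.eval_sub, Polynomial.eval_C]
    rcases k with _ | k
    · simp
    · simp only [Nat.add_sub_cancel]
      ring
  | succ i ih =>
    exact (ih (k + 2)).sub ((ih (k + 1)).const_mul (k : ℝ))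

theorem der_zero (i k : ℕ) (s : ℝ) (hs : s ≤ 0) : der i k s = 0 := by
  induction i generalizing k with
  | zero => simp [der, expNegInvGlue.zero_of_nonpos hs]
  | succ i ih => simp [der, ih]

theorem der0_eq (k : ℕ) (s : ℝ) (hs : 0 < s) : der 0 k s = s⁻¹ ^ k * Real.exp (-s⁻¹) := by
  simp [der, expNegInvGlue, hs.not_ge]

theorem der_bound (i k : ℕ) (s : ℝ) : |der i k s| ≤ 2 ^ i * ((k + 2 * i)! : ℝ) := by
  induction i generalizing k with
  | zero =>
    rcases le_or_gt s 0 with hs | hs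
    · rw [der_zero _ _ _ hs]; simp
    · rw [der0_eq k s hs]
      have hu : 0 ≤ s⁻¹ := by positivity
      have h1 := Real.pow_div_factorial_le_exp s⁻¹ hu k
      have hf : (0 : ℝ) < (k ! : ℝ) := by exact_mod_cast Nat.factorial_pos _
      rw [abs_of_nonneg (by positivity), Real.exp_neg]
      rw [div_le_iff₀ hf] at h1
      have he := Real.exp_pos s⁻¹
      simp only [pow_zero, mul_zero, add_zero, one_mul]
      rw [mul_inv_le_iff₀ he]
      linarith
  | succ i ih =>
    have h2 := ih (k + 2)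
    have h1 := ih (k + 1)
    have e2 : k + 2 + 2 * i = k + 2 * (i + 1) := by ring
    have e1 : ((k + 2 * (i + 1))! : ℝ) = (k + 2 * i + 2) * ((k + 1 + 2 * i)! : ℝ) := by
      rw [show k + 2 * (i + 1) = (k + 1 + 2 * i) + 1 by ring, Nat.factorial_succ]
      push_cast; ring
    rw [e2] at h2
    have hk : (0 : ℝ) ≤ k := Nat.cast_nonneg k
    have hi : (0 : ℝ) ≤ i := Nat.cast_nonneg i
    have hf : (0 : ℝ) < ((k + 1 + 2 * i)! : ℝ) := by exact_mod_cast Nat.factorial_pos _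
    calc |der (i + 1) k s| = |der i (k + 2) s - k * der i (k + 1) s| := rfl
      _ ≤ |der i (k + 2) s| + k * |der i (k + 1) s| := by
          refine (abs_sub _ _).trans ?_
          rw [abs_mul, abs_of_nonneg hk]
      _ ≤ 2 ^ i * ((k + 2 * (i + 1))! : ℝ) + k * (2 ^ i * ((k + 1 + 2 * i)! : ℝ)) := by
          gcongr
      _ ≤ 2 ^ i * ((k + 2 * (i + 1))! : ℝ)
          + (k + 2 * i + 2) * (2 ^ i * ((k + 1 + 2 * i)! : ℝ)) := by
          gcongr; linarith
      _ = 2 ^ (i + 1) * ((k + 2 * (i + 1))! : ℝ) := by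
          rw [e1]; ring

theorem add_factorial_le (k m : ℕ) : ((k + m)! : ℝ) ≤ 2 ^ (k + m) * (k ! : ℝ) * (m ! : ℝ) := by
  have h1 := Nat.add_choose_mul_factorial_mul_factorial k m
  have h2 := Nat.choose_le_two_pow (k + m) m
  have h3 : (k + m)! ≤ 2 ^ (k + m) * k ! * m ! := by
    rw [← h1]; gcongr
  exact_mod_cast h3

/-- The `i`-th derivative of the step function `H_N` with parameter `b`. -/
noncomputable def stepD (b : ℝ) (N i : ℕ) (t : ℝ) : ℝ :=
  ∑ k ∈ range N, b⁻¹ ^ i * der i k (t / b) / (k ! : ℝ)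

theorem stepD_chain {b : ℝ} (hb : 0 < b) (N : ℕ) : Chain (8 / b) (2 ^ N) (stepD b N) := by
  refine ⟨?_, ?_, ?_⟩
  · intro i t
    unfold stepD
    refine HasDerivAt.fun_sum fun k _ => ?_
    have h1 : HasDerivAt (fun t : ℝ => t / b) (1 / b) t := (hasDerivAt_id t).div_const b
    have h2 := (((der_hasDerivAt i k (t / b)).comp t h1).const_mul (b⁻¹ ^ i)).div_const (k ! : ℝ)
    refine h2.congr_deriv ?_
    rw [pow_succ]; field_simp
  · intro i t
    unfold stepD
    refine (abs_sum_le_sum_abs _ _).trans ?_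
    have hterm : ∀ k ∈ range N, |b⁻¹ ^ i * der i k (t / b) / (k ! : ℝ)|
        ≤ 2 ^ k * (((2 * i)! : ℝ) * (8 / b) ^ i) := by
      intro k _
      have hf : (0 : ℝ) < (k ! : ℝ) := by exact_mod_cast Nat.factorial_pos _
      rw [abs_div, abs_mul, abs_of_pos hf, abs_of_pos (by positivity), div_le_iff₀ hf]
      calc b⁻¹ ^ i * |der i k (t / b)| ≤ b⁻¹ ^ i * (2 ^ i * ((k + 2 * i)! : ℝ)) := by
            gcongr; exact der_bound _ _ _
        _ ≤ b⁻¹ ^ i * (2 ^ i * (2 ^ (k + 2 * i) * (k ! : ℝ) * ((2 * i)! : ℝ))) := by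
            gcongr; exact add_factorial_le _ _
        _ = 2 ^ k * (((2 * i)! : ℝ) * (8 / b) ^ i) * (k ! : ℝ) := by
            rw [div_eq_mul_inv, mul_pow, pow_add, pow_mul,
              show (8 : ℝ) ^ i = 2 ^ i * (2 ^ 2) ^ i by rw [← mul_pow]; norm_num]
            ring
    refine (sum_le_sum hterm).trans ?_
    rw [← sum_mul, mul_assoc]
    gcongr
    have := geom_sum_eq (x := (2 : ℝ)) (by norm_num) N
    rw [this]; norm_num
  · intro i t ht
    unfold stepD
    refine sum_eq_zero fun k _ => ?_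
    rw [der_zero _ _ _ (div_nonpos_of_nonpos_of_nonneg ht hb.le)]
    simp

theorem step_eq {b : ℝ} (hb : 0 < b) (N : ℕ) {t : ℝ} (ht : 0 < t) :
    stepD b N 0 t = (∑ k ∈ range N, (b / t) ^ k / (k ! : ℝ)) * Real.exp (-(b / t)) := by
  unfold stepD
  rw [sum_mul]
  refine sum_congr rfl fun k _ => ?_
  rw [der0_eq k _ (by positivity), inv_div]
  ring

theorem step_nonneg {b : ℝ} (hb : 0 < b) (N : ℕ) (t : ℝ) : 0 ≤ stepD b N 0 t := by
  rcases le_or_gt t 0 with ht | ht
  · rw [(stepD_chain hb N).zero 0 t ht]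
  · rw [step_eq hb N ht]; positivity

theorem step_le_one {b : ℝ} (hb : 0 < b) (N : ℕ) (t : ℝ) : stepD b N 0 t ≤ 1 := by
  rcases le_or_gt t 0 with ht | ht
  · rw [(stepD_chain hb N).zero 0 t ht]; norm_num
  · rw [step_eq hb N ht, Real.exp_neg, mul_inv_le_iff₀ (Real.exp_pos _), one_mul]
    exact Real.sum_le_exp_of_nonneg (by positivity) N

/-- Tail of the exponential series. -/
theorem exp_tail_le {u : ℝ} (hu : 0 ≤ u) (N : ℕ) :
    Real.exp u - ∑ k ∈ range N, u ^ k / (k ! : ℝ) ≤ (1 / 4) ^ N * Real.exp (4 * u) := by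
  have hs : ∀ x : ℝ, HasSum (fun k : ℕ => x ^ k / (k ! : ℝ)) (Real.exp x) := fun x => by
    rw [Real.exp_eq_exp_ℝ]; exact NormedSpace.expSeries_div_hasSum_exp x
  have h1 := (hasSum_nat_add_iff' N).2 (hs u)
  have h2 := (hasSum_nat_add_iff' N).2 (hs (4 * u))
  have h3 := h2.mul_left ((1 / 4 : ℝ) ^ N)
  have h4 : Real.exp u - ∑ k ∈ range N, u ^ k / (k ! : ℝ)
      ≤ (1 / 4) ^ N * (Real.exp (4 * u) - ∑ k ∈ range N, (4 * u) ^ k / (k ! : ℝ)) := by
    refine hasSum_le (fun k => ?_) h1 h3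
    have e : (1 / 4 : ℝ) ^ N * ((4 * u) ^ (k + N) / ((k + N)! : ℝ))
        = 4 ^ k * (u ^ (k + N) / ((k + N)! : ℝ)) := by
      rw [mul_pow, pow_add (4 : ℝ), one_div, inv_pow]; field_simp
    rw [e]
    have : (1 : ℝ) ≤ 4 ^ k := one_le_pow₀ (by norm_num)
    have h0 : 0 ≤ u ^ (k + N) / ((k + N)! : ℝ) := by positivity
    nlinarith
  refine h4.trans ?_
  gcongr
  have : 0 ≤ ∑ k ∈ range N, (4 * u) ^ k / (k ! : ℝ) := by positivity
  linarith

theorem one_sub_step_le {b : ℝ} (hb : 0 < b) {N : ℕ} (hN : 0 < N) {t : ℝ}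
    (ht : 6 * b / N ≤ t) : 1 - stepD b N 0 t ≤ 1 / N := by
  have hN' : (0 : ℝ) < N := by exact_mod_cast hN
  have ht0 : 0 < t := lt_of_lt_of_le (by positivity) ht
  rw [step_eq hb N ht0]
  set u := b / t with hu
  have hu0 : 0 ≤ u := by positivity
  have hu6 : 6 * u ≤ N := by
    rw [hu, ← mul_div_assoc, div_le_iff₀ ht0]
    rw [div_le_iff₀ hN'] at ht
    linarith
  have h1 := exp_tail_le hu0 N
  have e : 1 - (∑ k ∈ range N, u ^ k / (k ! : ℝ)) * Real.exp (-u)
      = (Real.exp u - ∑ k ∈ range N, u ^ k / (k ! : ℝ)) * Real.exp (-u) := by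
    rw [sub_mul, ← Real.exp_add]; simp
  rw [e]
  have h2 : Real.exp (4 * u) * Real.exp (-u) ≤ 2 ^ N := by
    rw [← Real.exp_add]
    have h3 : Real.exp (1 / 2) ≤ 2 := by
      have := Real.exp_one_lt_d9
      have h4 : Real.exp (1 / 2) * Real.exp (1 / 2) = Real.exp 1 := by
        rw [← Real.exp_add]; norm_num
      nlinarith [Real.exp_pos (1 / 2)]
    calc Real.exp (4 * u + -u) ≤ Real.exp (N * (1 / 2)) := by
          apply Real.exp_le_exp.2; linarith
      _ = Real.exp (1 / 2) ^ N := Real.exp_nat_mul _ _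
      _ ≤ 2 ^ N := by gcongr
  have h5 : (N : ℝ) ≤ 2 ^ N := by exact_mod_cast (Nat.lt_two_pow_self).le
  calc (Real.exp u - ∑ k ∈ range N, u ^ k / (k ! : ℝ)) * Real.exp (-u)
      ≤ (1 / 4) ^ N * Real.exp (4 * u) * Real.exp (-u) := by gcongr
    _ ≤ (1 / 4) ^ N * 2 ^ N := by rw [mul_assoc]; gcongr
    _ = 1 / 2 ^ N := by
        rw [← mul_pow, ← one_div_pow]; norm_num
    _ ≤ 1 / N := by gcongr

/-- Finite combinations of translates of a chain form a chain. -/
theorem Chain.comb {ρ M : ℝ} {F : ℕ → ℝ → ℝ} (h : Chain ρ M F) (J : ℕ)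
    (c s : ℕ → ℝ) (hs : ∀ j, 0 ≤ s j) :
    Chain ρ ((∑ j ∈ range J, |c j|) * M)
      (fun i t => ∑ j ∈ range J, c j * F i (t - s j)) := by
  refine ⟨?_, ?_, ?_⟩
  · intro i t
    refine HasDerivAt.fun_sum fun j _ => ?_
    have h1 : HasDerivAt (fun t : ℝ => t - s j) 1 t := (hasDerivAt_id t).sub_const _
    have h2 := ((h.deriv i (t - s j)).comp t h1).const_mul (c j)
    simpa using h2
  · intro i t
    refine (abs_sum_le_sum_abs _ _).trans ?_
    rw [mul_assoc, mul_assoc, sum_mul]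
    refine sum_le_sum fun j _ => ?_
    rw [abs_mul, ← mul_assoc M]
    gcongr
    exact h.bound _ _
  · intro i t ht
    refine sum_eq_zero fun j _ => ?_
    rw [h.zero i _ (by linarith [hs j]), mul_zero]

end Pool.Agent.P.MP_93c926_an
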