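import Pool.Agent.P.MP_93c926_an.Step

/-!
Approximate tracking of a Lipschitz target by a staircase of Gevrey steps.
-/

namespace Pool.Agent.P.MP_93c926_an

open Set Finset
open scoped NNReal

/-- Staircase approximation of a Lipschitz function by translates of a regularised step. -/
theorem staircase {Λ τ η T : ℝ} (hΛ : 0 ≤ Λ) (hτ : 0 < τ) (hη : 0 ≤ η) {g H : ℝ → ℝ}
    (hg : ∀ a b, |g a - g b| ≤ Λ * |a - b|) (hg0 : g 0 = 0)
    (hH0 : ∀ t, t ≤ 0 → H t = 0) (hH1 : ∀ t, 0 ≤ H t) (hH2 : ∀ t, H t ≤ 1)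
    (hH3 : ∀ t, τ ≤ t → 1 - H t ≤ η) {t : ℝ} (ht : t ∈ Icc 0 T) :
    |∑ j ∈ range (⌊T / τ⌋₊ + 1), (g ((j + 1 : ℕ) * τ) - g (j * τ)) * H (t - j * τ) - g t|
      ≤ 2 * Λ * τ + Λ * T * η := by
  set m := ⌊t / τ⌋₊ with hm
  have hm1 : (m : ℝ) * τ ≤ t := by
    have := Nat.floor_le (div_nonneg ht.1 hτ.le)
    rwa [le_div_iff₀ hτ] at this
  have hm2 : t < (m + 1) * τ := by
    have := Nat.lt_floor_add_one (t / τ)
    rwa [div_lt_iff₀ hτ] at this
  have hmJ : m + 1 ≤ ⌊T / τ⌋₊ + 1 := by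
    have : t / τ ≤ T / τ := by gcongr; exact ht.2
    exact Nat.succ_le_succ (Nat.floor_le_floor this)
  have hΔ : ∀ j : ℕ, |g ((j + 1 : ℕ) * τ) - g (j * τ)| ≤ Λ * τ := fun j => by
    have := hg ((j + 1 : ℕ) * τ) (j * τ)
    rwa [show ((j + 1 : ℕ) : ℝ) * τ - j * τ = τ by push_cast; ring, abs_of_pos hτ] at this
  have e1 : ∑ j ∈ range (⌊T / τ⌋₊ + 1), (g ((j + 1 : ℕ) * τ) - g (j * τ)) * H (t - j * τ)
      = ∑ j ∈ range (m + 1), (g ((j + 1 : ℕ) * τ) - g (j * τ)) * H (t - j * τ) := by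
    symm
    refine sum_subset (range_subset_range.2 hmJ) fun j _ hj => ?_
    have hj' : m + 1 ≤ j := by simpa using hj
    have : ((m : ℝ) + 1) * τ ≤ j * τ := by
      gcongr; exact_mod_cast hj'
    rw [hH0 _ (by linarith), mul_zero]
  have e2 : ∑ j ∈ range m, (g ((j + 1 : ℕ) * τ) - g (j * τ)) = g (m * τ) := by
    rw [sum_range_sub (fun j : ℕ => g (j * τ))]; simp [hg0]
  have e3 : ∑ j ∈ range (m + 1), (g ((j + 1 : ℕ) * τ) - g (j * τ)) * H (t - j * τ) - g t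
      = -(∑ j ∈ range m, (g ((j + 1 : ℕ) * τ) - g (j * τ)) * (1 - H (t - j * τ)))
        + (g ((m + 1 : ℕ) * τ) - g (m * τ)) * H (t - m * τ) + (g (m * τ) - g t) := by
    rw [sum_range_succ]
    simp only [mul_sub, mul_one, sum_sub_distrib] at e2 ⊢
    linarith
  rw [e1, e3]
  have b1 : |∑ j ∈ range m, (g ((j + 1 : ℕ) * τ) - g (j * τ)) * (1 - H (t - j * τ))|
      ≤ Λ * T * η := by
    refine (abs_sum_le_sum_abs _ _).trans ?_
    have : ∀ j ∈ range m, |(g ((j + 1 : ℕ) * τ) - g (j * τ)) * (1 - H (t - j * τ))|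
        ≤ Λ * τ * η := by
      intro j hj
      have hj' : j + 1 ≤ m := by simpa using hj
      have h1 : ((j : ℝ) + 1) * τ ≤ m * τ := by
        gcongr; exact_mod_cast hj'
      rw [abs_mul, abs_of_nonneg (sub_nonneg.2 (hH2 _))]
      exact mul_le_mul (hΔ j) (hH3 _ (by linarith)) (sub_nonneg.2 (hH2 _)) (by positivity)
    refine (sum_le_sum this).trans ?_
    rw [sum_const, card_range, nsmul_eq_mul]
    have h2 : (m : ℝ) * τ ≤ T := hm1.trans ht.2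
    calc (m : ℝ) * (Λ * τ * η) = Λ * (m * τ) * η := by ring
      _ ≤ Λ * T * η := by gcongr
  have b2 : |(g ((m + 1 : ℕ) * τ) - g (m * τ)) * H (t - m * τ)| ≤ Λ * τ := by
    rw [abs_mul, abs_of_nonneg (hH1 _)]
    calc _ ≤ Λ * τ * 1 := mul_le_mul (hΔ m) (hH2 _) (hH1 _) (by positivity)
      _ = Λ * τ := mul_one _
  have b3 : |g (m * τ) - g t| ≤ Λ * τ := by
    refine (hg _ _).trans ?_
    gcongr
    rw [abs_le]; constructor <;> linarith
  have := abs_add_three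
    (-(∑ j ∈ range m, (g ((j + 1 : ℕ) * τ) - g (j * τ)) * (1 - H (t - j * τ))))
    ((g ((m + 1 : ℕ) * τ) - g (m * τ)) * H (t - m * τ)) (g (m * τ) - g t)
  rw [abs_neg] at this
  linarith

/-- The explicit control. -/
theorem exists_control {L T : ℝ} (hL : 0 < L) (hT : 0 < T) {Λ : ℝ≥0} {w : ℝ → ℝ}
    (hw : LipschitzOnWith Λ w (Icc 0 T)) (hw0 : w 0 = 0) {N : ℕ} (hN : 0 < N) {ε : ℝ}
    (hε : Λ * (768 * L ^ 2 + T) / N ≤ ε) :
    ∃ v : ℝ → ℝ, Continuous v ∧ Tracks L T w ε v ∧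
      ∀ t, |v t| ≤ 4 * L * (Λ * (T + 384 * L ^ 2) * 2 ^ N) := by
  set b : ℝ := 64 * L ^ 2 with hb
  have hb0 : 0 < b := by positivity
  have hN' : (1 : ℝ) ≤ N := by exact_mod_cast hN
  set τ : ℝ := 6 * b / N with hτ
  have hτ0 : 0 < τ := by positivity
  have hτ1 : τ ≤ 384 * L ^ 2 := by
    rw [hτ, div_le_iff₀ (by linarith)]
    have : 0 < L ^ 2 := by positivity
    nlinarith
  set g : ℝ → ℝ := fun s => w (projIcc 0 T hT.le s) with hgdef
  have hg : ∀ a c, |g a - g c| ≤ Λ * |a - c| := fun a c => by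
    have h1 := hw.dist_le_mul _ (projIcc 0 T hT.le a).2 _ (projIcc 0 T hT.le c).2
    rw [Real.dist_eq, Real.dist_eq] at h1
    exact h1.trans (mul_le_mul_of_nonneg_left (abs_projIcc_sub_projIcc hT.le) Λ.2)
  have hgw : ∀ s ∈ Icc 0 T, g s = w s := fun s hs => by
    simp [hgdef, projIcc_of_mem hT.le hs]
  have hg0 : g 0 = 0 := by rw [hgw 0 ⟨le_rfl, hT.le⟩, hw0]
  have hch := (stepD_chain hb0 N).comb (⌊T / τ⌋₊ + 1)
    (fun j => g ((j + 1 : ℕ) * τ) - g (j * τ)) (fun j => j * τ) (fun j => by positivity)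
  have hR : 8 / b * (2 * L) ^ 2 ≤ 1 / 2 := by
    rw [hb]; field_simp; norm_num
  obtain ⟨hsol, hcont, hbd, hder⟩ := hch.solution (by positivity) hL hR T
  refine ⟨_, hcont, ⟨_, hsol, _, (hch.continuous 0).continuousOn, fun t ht => ⟨?_, ?_⟩⟩, ?_⟩
  · exact (hder t).hasDerivWithinAt
  · have := staircase (T := T) (η := 1 / N) Λ.2 hτ0 (by positivity) hg hg0
      ((stepD_chain hb0 N).zero 0) (step_nonneg hb0 N) (step_le_one hb0 N)
      (fun s hs => one_sub_step_le hb0 hN hs) ht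
    rw [hgw t ht] at this
    refine this.trans (le_of_eq_of_le ?_ hε)
    rw [hτ, hb]
    change 2 * (Λ : ℝ) * _ + (Λ : ℝ) * _ * _ = _
    field_simp; ring
  · intro t
    refine (hbd t).trans ?_
    gcongr
    have hΔ : ∀ j ∈ range (⌊T / τ⌋₊ + 1), |g ((j + 1 : ℕ) * τ) - g (j * τ)| ≤ Λ * τ :=
      fun j _ => by
        have := hg ((j + 1 : ℕ) * τ) (j * τ)
        rwa [show ((j + 1 : ℕ) : ℝ) * τ - j * τ = τ by push_cast; ring, abs_of_pos hτ0] at this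
    refine (sum_le_sum hΔ).trans ?_
    rw [sum_const, card_range, nsmul_eq_mul]
    have h1 : (⌊T / τ⌋₊ : ℝ) * τ ≤ T := by
      have := Nat.floor_le (div_nonneg hT.le hτ0.le)
      rwa [le_div_iff₀ hτ0] at this
    push_cast
    have hΛ : (0 : ℝ) ≤ Λ := Λ.2
    calc ((⌊T / τ⌋₊ : ℝ) + 1) * (Λ * τ) = Λ * (⌊T / τ⌋₊ * τ + τ) := by ring
      _ ≤ Λ * (T + 384 * L ^ 2) := by gcongr

theorem cost_le_of {L T ε B : ℝ} {w v : ℝ → ℝ} (hv : ContinuousOn v (Icc 0 T))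
    (ht : Tracks L T w ε v) (hB : ∀ t ∈ Icc 0 T, |v t| ≤ B) :
    cost L T w ε ≤ ENNReal.ofReal B := by
  unfold cost
  refine iInf_le_of_le v (iInf_le_of_le hv (iInf_le_of_le ht ?_))
  exact iSup₂_le fun t ht => ENNReal.ofReal_le_ofReal (hB t ht)

theorem cost_upper (L T : ℝ) (hL : 0 < L) (hT : 0 < T) :
    ∃ C : ℝ, 0 < C ∧ ∀ (Λ : ℝ≥0) (w : ℝ → ℝ), LipschitzOnWith Λ w (Icc 0 T) → w 0 = 0 →
      ∀ ε : ℝ, 0 < ε → cost L T w ε ≤ ENNReal.ofReal (C * Λ * Real.exp (C * Λ * ε⁻¹)) := by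
  set A : ℝ := 768 * L ^ 2 + T with hA
  have hA0 : 0 < A := by positivity
  set B : ℝ := 16 * L * (T + 384 * L ^ 2) with hB
  have hB0 : 0 < B := by positivity
  refine ⟨A + B, by positivity, fun Λ w hw hw0 ε hε => ?_⟩
  have hΛ : (0 : ℝ) ≤ Λ := Λ.2
  set N : ℕ := ⌈Λ * A / ε⌉₊ + 1 with hN
  have hN0 : 0 < N := Nat.succ_pos _
  have hN1 : Λ * A / ε ≤ N := by
    have := Nat.le_ceil (Λ * A / ε)
    rw [hN]; push_cast; linarith
  have hN2 : (N : ℝ) ≤ Λ * A / ε + 2 := by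
    have := (Nat.ceil_lt_add_one (show 0 ≤ Λ * A / ε by positivity)).le
    rw [hN]; push_cast; linarith
  have hN3 : (0 : ℝ) < N := by exact_mod_cast hN0
  have hε' : Λ * (768 * L ^ 2 + T) / N ≤ ε := by
    rw [div_le_iff₀ hN3]
    rw [div_le_iff₀ hε] at hN1
    linarith
  obtain ⟨v, hv, htr, hbd⟩ := exists_control hL hT hw hw0 hN0 hε'
  refine cost_le_of hv.continuousOn htr fun t _ => (hbd t).trans ?_
  have h2 : (2 : ℝ) ^ N ≤ 4 * Real.exp ((A + B) * Λ * ε⁻¹) := by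
    have h3 : (2 : ℝ) ^ N = Real.exp (N * Real.log 2) := by
      rw [Real.exp_nat_mul, Real.exp_log (by norm_num)]
    have h4 : (4 : ℝ) = Real.exp (2 * Real.log 2) := by
      rw [show (2 : ℝ) * Real.log 2 = (2 : ℕ) * Real.log 2 by norm_num, Real.exp_nat_mul,
        Real.exp_log (by norm_num)]; norm_num
    rw [h3, h4, ← Real.exp_add]
    apply Real.exp_le_exp.2
    have hl0 : 0 < Real.log 2 := Real.log_pos (by norm_num)
    have hl1 : Real.log 2 ≤ 1 := by have := Real.log_two_lt_d9; linarith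
    have h5 : 0 ≤ Λ * A / ε := by positivity
    have h6 : Λ * A / ε ≤ (A + B) * Λ * ε⁻¹ := by
      rw [div_eq_mul_inv, mul_comm (Λ : ℝ) A]; gcongr; linarith
    nlinarith
  calc 4 * L * (Λ * (T + 384 * L ^ 2) * 2 ^ N)
      ≤ 4 * L * (Λ * (T + 384 * L ^ 2) * (4 * Real.exp ((A + B) * Λ * ε⁻¹))) := by gcongr
    _ = B * Λ * Real.exp ((A + B) * Λ * ε⁻¹) := by rw [hB]; ring
    _ ≤ (A + B) * Λ * Real.exp ((A + B) * Λ * ε⁻¹) := by gcongr; linarith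

end Pool.Agent.P.MP_93c926_an
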